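import Pool.Agent.Y444.RP.Stm

/-! Project RP (helper444), block TOP: the tree space is `T1`, with a Noetherian base of rank one. -/

set_option autoImplicit false

open Set TopologicalSpace

namespace Pool.Agent.Y145.RP

open Pool.Agent.Helper332.NB
open Pool.Agent.Y444.RP

lemma isLeast_f (A : RW) : IsLeast A.1 A.f := by
  obtain ⟨m, hm⟩ := A.2.2
  have h1 : A.f = m := hm.csInf_eq
  rw [h1]
  exact hm

lemma le_sub {A B : RW} (h : A.le B) : A.1 ⊆ B.1 := by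
  have h1 : A.1 = B.1 ∩ Ici A.f := h
  rw [h1]
  exact inter_subset_left

lemma f_lt (h : LimStm) {A B : RW} (hle : A.le B) (hne : A ≠ B) : B.f < A.f := by
  obtain ⟨-, -, h3, h4, -⟩ := h
  rcases (h3 A B hle).lt_or_eq with h5 | h5
  · exact h5
  · exact absurd (h4 A B hle h5.ge) hne

lemma gap (h : LimStm) {A B : RW} (hle : A.le B) (hne : A ≠ B) :
    ∃ g, IsGreatest {b | b ∈ B.1 ∧ b < A.f} g :=
  B.2.1 _ (fun _ hb => hb.1) ⟨B.f, (isLeast_f B).1, f_lt h hle hne⟩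

lemma mem_self (h : LimStm) (A : RW) (n : ℕ) : A ∈ A.N n := ⟨h.2.1 A, Or.inl rfl⟩

lemma inv_le {n m : ℕ} (hnm : n ≤ m) : 1 / ((m : ℝ) + 1) ≤ 1 / ((n : ℝ) + 1) := by
  apply one_div_le_one_div_of_le (by positivity)
  have : (n : ℝ) ≤ m := by exact_mod_cast hnm
  linarith

lemma N_mono (A : RW) {n m : ℕ} (hnm : n ≤ m) : A.N m ⊆ A.N n := by
  rintro B ⟨h1, h2⟩
  refine ⟨h1, ?_⟩
  rcases h2 with h2 | ⟨b, hb, h3, h4⟩
  · exact Or.inl h2
  · right
    refine ⟨b, hb, ?_, h4⟩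
    have := inv_le hnm
    linarith

lemma N_sub (h : LimStm) {A C : RW} {n m : ℕ} (hC : C ∈ A.N n) (hnm : n ≤ m) :
    C.N m ⊆ A.N n := by
  by_cases hCA : C = A
  · rw [hCA]
    exact N_mono A hnm
  · rintro D ⟨h1, -⟩
    obtain ⟨h2, h3⟩ := hC
    refine ⟨h.1 A C D h2 h1, ?_⟩
    rcases h3 with h3 | ⟨b, hb, h4, h5⟩
    · exact absurd h3 hCA
    · exact Or.inr ⟨b, le_sub h1 hb, h4, h5⟩

theorem basis (h : LimStm) :
    IsTopologicalBasis {s : Set RW | ∃ (A : RW) (n : ℕ), s = A.N n} where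
  exists_subset_inter := by
    rintro _ ⟨A, n, rfl⟩ _ ⟨A', n', rfl⟩ C ⟨h1, h2⟩
    exact ⟨C.N (max n n'), ⟨C, _, rfl⟩, mem_self h C _,
      subset_inter (N_sub h h1 (le_max_left _ _)) (N_sub h h2 (le_max_right _ _))⟩
  sUnion_eq := by
    rw [eq_univ_iff_forall]
    intro A
    exact ⟨A.N 0, ⟨A, 0, rfl⟩, mem_self h A 0⟩
  eq_generateFrom := rfl

theorem t1 (h : LimStm) : T1Space RW := by
  rw [t1Space_iff_exists_open]
  intro A B hne
  have hop : ∀ n, IsOpen (A.N n) := fun n => isOpen_generateFrom_of_mem ⟨A, n, rfl⟩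
  by_cases hle : A.le B
  · obtain ⟨g, hg1, hg2⟩ := gap h hle hne
    obtain ⟨n, hn⟩ := exists_nat_one_div_lt (sub_pos.2 hg1.2)
    refine ⟨A.N n, hop n, mem_self h A n, ?_⟩
    rintro ⟨-, h2⟩
    rcases h2 with h2 | ⟨b, hb, h3, h4⟩
    · exact hne h2.symm
    · have h5 : b ≤ g := hg2 ⟨hb, h4⟩
      linarith
  · exact ⟨A.N 0, hop 0, mem_self h A 0, fun h2 => hle h2.1⟩

lemma rank_aux (h : LimStm) {A A' C : RW} {n n' : ℕ} (h1 : C ∈ A.N n) (h2 : C ∈ A'.N n')
    (hf : A'.f ≤ A.f) : A.N n ⊆ A'.N n' ∨ A'.N n' ⊆ A.N n := by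
  have hAC : A.1 = C.1 ∩ Ici A.f := h1.1
  have hAC' : A'.1 = C.1 ∩ Ici A'.f := h2.1
  have hle : A.le A' := by
    show A.1 = A'.1 ∩ Ici A.f
    rw [hAC', inter_assoc, Ici_inter_Ici, sup_eq_right.2 hf]
    exact hAC
  by_cases hAA : A = A'
  · subst hAA
    rcases le_total n n' with h3 | h3
    · exact Or.inr (N_mono A h3)
    · exact Or.inl (N_mono A h3)
  · right
    have hlt := f_lt h hle hAA
    have hCA : A ≠ C := by
      intro h3
      subst h3
      have := h.2.2.1 A' A h2.1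
      linarith
    obtain ⟨g, hg1, hg2⟩ := gap h h1.1 hCA
    obtain ⟨b, hb, h4, h5⟩ := h1.2.resolve_left fun h3 => hCA h3.symm
    have h6 : b ≤ g := hg2 ⟨hb, h5⟩
    have h7 : A'.f ≤ g := hg2 ⟨le_sub h2.1 (isLeast_f A').1, hlt⟩
    have h8 : g ∈ A'.1 := by
      rw [hAC']
      exact ⟨hg1.1, h7⟩
    rintro D ⟨h9, -⟩
    exact ⟨h.1 A A' D hle h9, Or.inr ⟨g, le_sub h9 h8, by linarith, hg1.2⟩⟩

theorem rank (h : LimStm) : RankOne {s : Set RW | ∃ (A : RW) (n : ℕ), s = A.N n} := by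
  rintro C _ ⟨A, n, rfl⟩ _ ⟨A', n', rfl⟩ h1 h2
  rcases le_total A'.f A.f with hf | hf
  · exact rank_aux h h1 h2 hf
  · exact (rank_aux h h2 h1 hf).symm

theorem noeth (h : LimStm) : Noetherian {s : Set RW | ∃ (A : RW) (n : ℕ), s = A.N n} := by
  rintro ⟨G, hG, hinc⟩
  choose A n hGA using hG
  have hstep : ∀ k, (A (k + 1)).le (A k) := by
    intro k
    have h1 : A k ∈ G k := by
      rw [hGA k]
      exact mem_self h _ _
    have h2 := (hinc k).1 h1
    rw [hGA (k + 1)] at h2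
    exact h2.1
  have hchain : ∀ i j, i ≤ j → (A j).le (A i) := by
    intro i j hij
    induction j, hij using Nat.le_induction with
    | base => exact h.2.1 _
    | succ j _ ih => exact h.1 _ _ _ (hstep j) ih
  obtain ⟨m, hm1, hm2⟩ := (A 0).2.1 (range fun k => (A k).f) (by
    rintro _ ⟨k, rfl⟩
    exact le_sub (hchain 0 k (Nat.zero_le k)) (isLeast_f (A k)).1) ⟨_, 0, rfl⟩
  obtain ⟨j, hj⟩ := hm1
  have hj' : (A j).f = m := hj
  have heq : ∀ k, j ≤ k → A k = A j := by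
    intro k hk
    apply h.2.2.2.1 _ _ (hchain j k hk)
    rw [hj']
    exact hm2 ⟨k, rfl⟩
  have hdec : ∀ k, j ≤ k → n (k + 1) < n k := by
    intro k hk
    by_contra hcon
    push Not at hcon
    apply (hinc k).2
    rw [hGA k, hGA (k + 1), heq k hk, heq (k + 1) (by omega)]
    exact N_mono _ hcon
  have hfin : ∀ i, n (j + i) + i ≤ n j := by
    intro i
    induction i with
    | zero => simp
    | succ i ih =>
      have := hdec (j + i) (by omega)
      have e : j + (i + 1) = j + i + 1 := by omega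
      rw [e]
      omega
  have := hfin (n j + 1)
  omega

theorem t : LimStm → TopStm := fun h => ⟨t1 h, basis h, noeth h, rank h⟩

end Pool.Agent.Y145.RP
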